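import Pool.Agent.H456R3.Q.C2

set_option autoImplicit false

open MeasureTheory Set Filter Topology
open scoped ENNReal

namespace Pool.Agent.Results.MP_a6dd47_an.FirstIsolated

variable {N : ℕ}

/-- `φ` belongs to `C_0^∞(Ω)` -/
def TestFn (Ω : Set (EuclideanSpace ℝ (Fin N))) (φ : EuclideanSpace ℝ (Fin N) → ℝ) : Prop :=
  ContDiff ℝ ((⊤ : ℕ∞) : WithTop ℕ∞) φ ∧ HasCompactSupport φ ∧ tsupport φ ⊆ Ω

/-- `Ω` is `q`-admissible: the embedding of `D^{1,2}_0(Ω)` into `L^q` is compact, that is, every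
sequence of test functions with Dirichlet energy at most `1` has a subsequence converging in `L^q` -/
def QAdmissible (q : ℝ) (Ω : Set (EuclideanSpace ℝ (Fin N))) : Prop :=
  ∀ φ : ℕ → EuclideanSpace ℝ (Fin N) → ℝ, (∀ n, TestFn Ω (φ n)) →
    (∀ n, ∫ x, ‖gradient (φ n) x‖ ^ 2 ≤ 1) →
    ∃ (u : EuclideanSpace ℝ (Fin N) → ℝ) (ns : ℕ → ℕ), StrictMono ns ∧
      MemLp u (ENNReal.ofReal q) volume ∧
      Tendsto (fun n => eLpNorm (fun x => φ (ns n) x - u x) (ENNReal.ofReal q) volume) atTop (𝓝 0)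

/-- `u` is an element of `D^{1,2}_0(Ω)` (realised in `L^q`) and `G` is its gradient: `(u, G)` is the
limit in `L^q × L^2` of pairs `(φ_n, ∇φ_n)` with `φ_n` test functions -/
def InD (q : ℝ) (Ω : Set (EuclideanSpace ℝ (Fin N))) (u : EuclideanSpace ℝ (Fin N) → ℝ)
    (G : EuclideanSpace ℝ (Fin N) → EuclideanSpace ℝ (Fin N)) : Prop :=
  MemLp u (ENNReal.ofReal q) volume ∧ MemLp G 2 volume ∧
  ∃ φ : ℕ → EuclideanSpace ℝ (Fin N) → ℝ, (∀ n, TestFn Ω (φ n)) ∧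
    Tendsto (fun n => eLpNorm (fun x => φ n x - u x) (ENNReal.ofReal q) volume) atTop (𝓝 0) ∧
    Tendsto (fun n => eLpNorm (fun x => gradient (φ n) x - G x) 2 volume) atTop (𝓝 0)

/-- the set of `q`-eigenvalues -/
def Spec (q : ℝ) (Ω : Set (EuclideanSpace ℝ (Fin N))) : Set ℝ :=
  {lam | ∃ (u : EuclideanSpace ℝ (Fin N) → ℝ)
      (G : EuclideanSpace ℝ (Fin N) → EuclideanSpace ℝ (Fin N)),
    InD q Ω u G ∧ ¬ (u =ᵐ[volume] 0) ∧
    ∀ ψ : EuclideanSpace ℝ (Fin N) → ℝ, TestFn Ω ψ →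
      ∫ x, inner ℝ (G x) (gradient ψ x) =
        lam * ((eLpNorm u (ENNReal.ofReal q) volume).toReal) ^ (2 - q) *
          ∫ x, |u x| ^ (q - 2) * u x * ψ x}

/-- the first `q`-eigenvalue: infimum of the Dirichlet energy on the unit sphere of `L^q` -/
noncomputable def lam1 (q : ℝ) (Ω : Set (EuclideanSpace ℝ (Fin N))) : ℝ :=
  sInf {t : ℝ | ∃ (u : EuclideanSpace ℝ (Fin N) → ℝ)
      (G : EuclideanSpace ℝ (Fin N) → EuclideanSpace ℝ (Fin N)),
    InD q Ω u G ∧ eLpNorm u (ENNReal.ofReal q) volume = 1 ∧ t = ∫ x, ‖G x‖ ^ 2}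

/-- For every `N ≥ 2`, every `2 < q < 2^*` and every `q`-admissible open set the first
`q`-eigenvalue (the least element of the spectrum if the set is nonempty) is isolated. Moreover
there are only finitely many `q`-eigenvalues below `2^{1-2/q} λ_1 + ε` for some `ε > 0`. -/
theorem result : ∀ (N : ℕ) (q : ℝ) (Ω : Set (EuclideanSpace ℝ (Fin N))), 2 ≤ N → 2 < q →
    (3 ≤ N → q < 2 * (N : ℝ) / ((N : ℝ) - 2)) → IsOpen Ω → QAdmissible q Ω →
    (Ω.Nonempty → IsLeast (Spec q Ω) (lam1 q Ω) ∧ 0 < lam1 q Ω) ∧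
    ∃ ε : ℝ, 0 < ε ∧ (∀ lam ∈ Spec q Ω, lam1 q Ω < lam → lam1 q Ω + ε ≤ lam) ∧
      {lam | lam ∈ Spec q Ω ∧ lam ≤ 2 ^ (1 - 2 / q) * lam1 q Ω + ε}.Finite := by
  intro N q Ω hN hq hq' hΩo hΩ
  have hq'' : ((N : ℝ) - 2) * q < 2 * (N : ℝ) := by
    rcases Nat.lt_or_ge N 3 with h | h
    · have : N = 2 := by omega
      subst this; norm_num
    · have h1 := hq' h
      have h2 : (3 : ℝ) ≤ N := by exact_mod_cast h
      rw [lt_div_iff₀ (by linarith)] at h1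
      linarith
  have hadm : Pool.Agent.H456R3.Q.A1.QAdm q Ω := by
    intro φ hφ hE
    refine hΩ φ hφ (fun n => ?_)
    have := hE n
    unfold Pool.Agent.H456R3.Q.A1.en at this
    simpa only [Pool.Agent.Helper420.QI.Sob.gradient_norm] using this
  exact Pool.Agent.H456R3.Q.C1.main hN hq hq'' hΩo hadm rfl

end Pool.Agent.Results.MP_a6dd47_an.FirstIsolated
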